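import Pool.Agent.H13.RF.J4
import Pool.Agent.H13.RF.J5

set_option autoImplicit false

/-!
# The random friend tree: degree proportions among the non-leaves and growth exponent

Full answer of the question, in the affirmative, for every random friend tree on every probability space.
-/

namespace Pool.Agent.Results.MP_fec5a5_pr.FriendTree

open MeasureTheory Filter Topology RFT

/-- Random friend trees exist.  There are `μ ∈ [2/5, 19/25]`, numbers `p_k` and constants `0 < c ≤ C` with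
`c k^(-(1+μ)) ≤ p_k ≤ C k^(-(1+μ))` for all `k ≥ 2` such that for every random friend tree, almost surely,
`log X_n^{≥2} / log n → μ` and `X_n^k / X_n^{≥2} → p_k` for all `k ≥ 2`. -/
theorem result.{u} :
    (∃ (Ω : Type) (_ : MeasurableSpace Ω) (P : Measure Ω) (_ : IsProbabilityMeasure P)
      (V W : ℕ → Ω → ℕ), IsFriendTree P V W) ∧
    ∃ (μ : ℝ) (p : ℕ → ℝ) (c C : ℝ), 2 / 5 ≤ μ ∧ μ ≤ 19 / 25 ∧ 0 < c ∧ c ≤ C ∧
      (∀ k : ℕ, 2 ≤ k → c * (k : ℝ) ^ (-(1 + μ)) ≤ p k ∧ p k ≤ C * (k : ℝ) ^ (-(1 + μ))) ∧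
      ∀ (Ω : Type u) [MeasurableSpace Ω] (P : Measure Ω) [IsProbabilityMeasure P]
        (V W : ℕ → Ω → ℕ), IsFriendTree P V W →
        ∀ᵐ ω ∂P,
          Tendsto (fun n : ℕ => Real.log (Xge 2 (fun j => W j ω) n) / Real.log n) atTop (𝓝 μ) ∧
          ∀ k : ℕ, 2 ≤ k → Tendsto (fun n : ℕ =>
            (Xeq k (fun j => W j ω) n : ℝ) / (Xge 2 (fun j => W j ω) n : ℝ)) atTop (𝓝 (p k)) := by
  refine ⟨exists_friendTree, ?_⟩
  obtain ⟨μ, p, c, C, h0, h1, hc, hp, hmain⟩ := main.{u}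
  refine ⟨μ, p, c, C, h0, h1, hc, ?_, hp, ?_⟩
  · obtain ⟨h2, h3⟩ := hp 2 le_rfl
    have h4 : (0 : ℝ) < ((2 : ℕ) : ℝ) ^ (-(1 + μ)) := Real.rpow_pos_of_pos (by norm_num) _
    exact le_of_mul_le_mul_right (h2.trans h3) h4
  · intro Ω _ P _ V W h
    obtain ⟨hA, hB⟩ := hmain Ω P V W h
    have hB' : ∀ᵐ ω ∂P, ∀ k : ℕ, 2 ≤ k → Tendsto (fun n : ℕ =>
        (Xeq k (fun j => W j ω) n : ℝ) / (Xge 2 (fun j => W j ω) n : ℝ)) atTop (𝓝 (p k)) := by
      rw [ae_all_iff]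
      intro k
      by_cases hk : 2 ≤ k
      · filter_upwards [hB k hk] with ω hω _
        exact hω
      · exact Filter.Eventually.of_forall fun ω h => absurd h hk
    filter_upwards [hA, hB'] with ω h2 h3
    exact ⟨h2, h3⟩

end Pool.Agent.Results.MP_fec5a5_pr.FriendTree
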